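import Mathlib
import Pool.Agent.H381R2.HR.Main

/-!
# Maximal admissible sets: beyond Hensley–Richards

For every `α < 1/2` and all large real `x` there is a set of integers in `[0, x)` containing `0`,
missing a residue class modulo every prime, with at least
`π(x) + α x log log log x / (log x)^2` elements; i.e.
`ρ*(x) ≥ π(x) + α x log log log x / (log x)^2`.
-/

set_option autoImplicit false

namespace Pool.Agent.Results.MP_67e6ae_nt.BeyondHensleyRichards

theorem result (α : ℝ) (hα : α < 1 / 2) : ∃ x0 : ℝ, ∀ x : ℝ, x0 ≤ x →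
    ∃ S : Finset ℤ, 0 ∈ S ∧ (∀ s ∈ S, 0 ≤ s ∧ (s : ℝ) < x) ∧
      (∀ q : ℕ, q.Prime → ∃ r : ℤ, ∀ s ∈ S, ¬ ((q : ℤ) ∣ s - r)) ∧
      (Nat.primeCounting ⌊x⌋₊ : ℝ) +
        α * (x * Real.log (Real.log (Real.log x)) / (Real.log x) ^ 2) ≤ (S.card : ℝ) :=
  Pool.Agent.H381R2.HR.final hα

end Pool.Agent.Results.MP_67e6ae_nt.BeyondHensleyRichards
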